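import Mathlib

set_option autoImplicit false

namespace Pool.Agent.Results.MP_5e3dfa_co.Order

open Finset

/-- Maximal intersecting family of `n/2`-element subsets. -/
def MaxInt {n : ℕ} (F : Set (Finset (Fin n))) : Prop :=
  (∀ A ∈ F, 2 * #A = n) ∧ (∀ A ∈ F, ∀ B ∈ F, (A ∩ B).Nonempty) ∧
    ∀ A, 2 * #A = n → (∀ B ∈ F, (A ∩ B).Nonempty) → A ∈ F

/-- `F` shatters some system of `k` pairwise disjoint `r`-element sets. -/
def Shatters {n : ℕ} (F : Set (Finset (Fin n))) (r k : ℕ) : Prop :=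
  ∃ M : Fin k → Finset (Fin n), (∀ i, #(M i) = r) ∧ (∀ i j, i ≠ j → Disjoint (M i) (M j)) ∧
    ∀ c : Fin k → Fin n, (∀ i, c i ∈ M i) → ∃ A ∈ F, A ∩ univ.biUnion M = univ.image c

theorem cards {n k r : ℕ} (M : Fin k → Finset (Fin n)) (h1 : ∀ i, #(M i) = r)
    (h2 : ∀ i j, i ≠ j → Disjoint (M i) (M j)) (c : Fin k → Fin n) (hc : ∀ i, c i ∈ M i) :
    univ.image c ⊆ univ.biUnion M ∧ #(univ.image c) = k ∧ #(univ.biUnion M) = k * r := by
  refine ⟨fun x hx => ?_, ?_, ?_⟩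
  · obtain ⟨i, -, rfl⟩ := mem_image.1 hx
    exact mem_biUnion.2 ⟨i, mem_univ _, hc i⟩
  · rw [card_image_of_injective _ fun i j e => by
      by_contra z
      exact disjoint_left.1 (h2 i j z) (hc i) (e ▸ hc j)]
    simp
  · rw [card_biUnion fun i _ j _ z => h2 i j z]; simp [h1]

theorem lower {n r k : ℕ} (hn : Even n) (hk : 2 * (k * r) ≤ n) (F : Set (Finset (Fin n)))
    (hF : MaxInt F) : Shatters F r k := by
  obtain ⟨h, rfl⟩ := hn
  obtain ⟨e⟩ := Function.Embedding.nonempty_of_card_le (α := Bool × Fin k × Fin r) (β := Fin (h + h))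
    (by simpa using hk)
  obtain ⟨M, hM⟩ : ∃ M : Bool → Fin k → Finset (Fin (h + h)),
      ∀ b i x, x ∈ M b i ↔ ∃ j, e (b, i, j) = x :=
    ⟨fun b i => univ.image fun j => e (b, i, j), by simp⟩
  have m1 : ∀ b i, #(M b i) = r := fun b i => by
    rw [show M b i = univ.image fun j => e (b, i, j) by ext; simp [hM],
      card_image_of_injective _ fun j j' z => by simpa using z]
    simp
  have m2 : ∀ b b' i j, (b, i) ≠ (b', j) → Disjoint (M b i) (M b' j) := fun b b' i j z => by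
    rw [disjoint_left]
    intro x h1 h2
    obtain ⟨a, rfl⟩ := (hM _ _ _).1 h1
    obtain ⟨a', ha⟩ := (hM _ _ _).1 h2
    simp at ha z
    exact z ha.1.symm ha.2.1.symm
  have m3 : ∀ b i j, i ≠ j → Disjoint (M b i) (M b j) := fun b i j z => m2 b b i j (by simpa using z)
  by_contra hc
  have : ∀ b, ∃ c : Fin k → Fin (h + h), (∀ i, c i ∈ M b i) ∧
      ∀ A ∈ F, A ∩ univ.biUnion (M b) ≠ univ.image c := fun b => by
    by_contra z
    push Not at z
    exact hc ⟨M b, m1 b, m3 b, z⟩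
  choose c c1 c2 using this
  obtain ⟨a1, a2, a3⟩ := cards _ (m1 true) (m3 true) _ (c1 true)
  obtain ⟨b1, b2, b3⟩ := cards _ (m1 false) (m3 false) _ (c1 false)
  have dj : Disjoint (univ.biUnion (M true)) (univ.biUnion (M false)) := by
    simp only [disjoint_biUnion_left, disjoint_biUnion_right]
    exact fun i _ j _ => m2 _ _ _ _ (by simp)
  have a4 := c2 true
  have b4 := c2 false
  generalize univ.biUnion (M true) = U at *
  generalize univ.biUnion (M false) = U' at *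
  generalize univ.image (c true) = T at *
  generalize univ.image (c false) = T' at *
  have d := @disjoint_left.1 dj
  have s1 := card_sdiff_add_card_eq_card a1
  have s2 := card_sdiff_add_card_eq_card b1
  have u1 := card_union_le T (U' \ T')
  have u2 := card_union_le (U \ T) T'
  obtain ⟨A, p1, p2, p3⟩ := exists_subsuperset_card_eq (s := T ∪ U' \ T') (t := (U \ T ∪ T')ᶜ) (n := h)
    (fun x => by
      have := @a1 x; have := @b1 x; have := @d x
      simp only [mem_union, mem_sdiff, mem_compl]; tauto)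
    (by omega) (by rw [card_compl, Fintype.card_fin]; omega)
  have q : ∀ x, (x ∈ T ∨ x ∈ U' ∧ x ∉ T' → x ∈ A) ∧ (x ∈ A → ¬(x ∈ U ∧ x ∉ T ∨ x ∈ T')) := fun x =>
    ⟨by simpa using @p1 x, by simpa only [mem_union, mem_sdiff, mem_compl] using @p2 x⟩
  by_cases hA : A ∈ F
  · refine a4 A hA (Finset.ext fun x => ?_)
    have := q x; have := @a1 x
    rw [mem_inter]; tauto
  · obtain ⟨B, hB, z⟩ : ∃ B ∈ F, ¬ (A ∩ B).Nonempty := by
      by_contra z
      push Not at z
      exact hA (hF.2.2 A (by omega) fun B hB => by simpa using z B hB)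
    have e : B = Aᶜ := eq_of_subset_of_card_le
      (fun x hx => mem_compl.2 fun y => z ⟨x, mem_inter.2 ⟨y, hx⟩⟩)
      (by rw [card_compl, Fintype.card_fin]; have := hF.1 B hB; omega)
    refine b4 B hB (Finset.ext fun x => ?_)
    have := q x; have := @b1 x
    rw [e, mem_inter, mem_compl]; tauto

theorem upper {n r k : ℕ} (hr : 0 < r) (F : Set (Finset (Fin n))) (hF : MaxInt F)
    (h : Shatters F r k) : 2 * (k * (r - 1)) ≤ n := by
  obtain ⟨M, m1, m2, m3⟩ := h
  choose c hc using fun i => card_pos.1 (m1 i ▸ hr : 0 < #(M i))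
  obtain ⟨A, hA, e⟩ := m3 c hc
  obtain ⟨-, a2, a3⟩ := cards M m1 m2 c hc
  have h1 := card_union_add_card_inter A (univ.biUnion M)
  have h2 := card_le_univ (A ∪ univ.biUnion M)
  have := hF.1 A hA
  rw [e, a2, a3] at h1
  rw [Fintype.card_fin] at h2
  rw [Nat.mul_sub_one]
  omega

theorem result (n r : ℕ) (hn : Even n) (h4 : 4 ≤ n) (hr : 3 ≤ r) :
    ∃ k, IsGreatest {k | ∀ F : Set (Finset (Fin n)), MaxInt F → Shatters F r k} k ∧
      n / (2 * r) ≤ k ∧ k ≤ n / (2 * (r - 1)) := by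
  obtain ⟨x⟩ : Nonempty (Fin n) := ⟨⟨0, by omega⟩⟩
  have hF : MaxInt {A : Finset (Fin n) | 2 * #A = n ∧ x ∈ A} := by
    refine ⟨fun A h => h.1, fun A h B h' => ⟨x, mem_inter.2 ⟨h.2, h'.2⟩⟩, fun A h h' => ⟨h, ?_⟩⟩
    by_contra z
    simpa using h' Aᶜ ⟨by rw [card_compl, Fintype.card_fin]; omega, mem_compl.2 z⟩
  have up : ∀ k ∈ {k | ∀ F : Set (Finset (Fin n)), MaxInt F → Shatters F r k},
      k ≤ n / (2 * (r - 1)) := fun k hk => by
    rw [Nat.le_div_iff_mul_le (by omega), mul_left_comm]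
    exact upper (by omega) _ hF (hk _ hF)
  have lo : n / (2 * r) ∈ {k | ∀ F : Set (Finset (Fin n)), MaxInt F → Shatters F r k} :=
    lower hn (by rw [mul_left_comm]; exact Nat.div_mul_le_self _ _)
  exact ⟨_, ⟨Nat.sSup_mem ⟨_, lo⟩ ⟨_, up⟩, fun k hk => le_csSup ⟨_, up⟩ hk⟩, le_csSup ⟨_, up⟩ lo,
    up _ (Nat.sSup_mem ⟨_, lo⟩ ⟨_, up⟩)⟩

end Pool.Agent.Results.MP_5e3dfa_co.Order
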